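import Pool.Agent.Lib_MP_59ec1f_cap.TabAll
import Pool.Agent.Lib_MP_59ec1f_cap.TabTop

/-!
# MP_59ec1f_gt, Q1: an exact Lagrangian cap of genus one

The surface is cut into four strips, glued like the four quarters of a torus; its time slices are closed plane curves which
are given by an integer table (`TabRows.lean`): heights of 64 vertices in fixed columns at the times `0, 1, ..., 20`. The
corners of the piecewise linear data are rounded, the two saddles and the last maximum are explicit local models. The tests
of the table (primitives, order of the sheets) are checked by the kernel (`TabAll.lean`, `TabTop.lean`).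
-/

set_option autoImplicit false

namespace Pool.Agent.Results.MP_59ec1f_gt.GenusOneCap

open Pool.Agent.Lib_MP_59ec1f_cap

/-- There are a Legendrian knot `K` in `R^3` and an exact Lagrangian cap `L` of `K` which is homeomorphic to the torus
without a point, i.e. of genus one. -/
theorem result : ∃ (K : Set E3) (L : Set E4), IsLegendrianKnot K ∧ IsExactCap K L ∧ Nonempty (L ≃ₜ PuncturedTorus) :=
  StripTab.statement_of_tests capLink capOk capOk2 capOk3 capEndA capEndB capLink_test

end Pool.Agent.Results.MP_59ec1f_gt.GenusOneCap
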